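import Pool.Agent.Q234.PL.Stm

/-!
# Project PL, job AL: the coefficients of the square root
-/

set_option autoImplicit false

open scoped BigOperators Matrix
open Finset Pool.Agent.TH235.PP

namespace Pool.Agent.Q208.PL.Al

open Pool.Agent.Q234.PL

theorem al_eq (n : ℕ) : al (n + 1) = (Nat.centralBinom n : ℝ) / (4 ^ n * (2 * ((n : ℝ) + 1))) := by
  unfold al
  rw [Nat.add_sub_cancel]
  push_cast
  rfl

theorem al_cat (n : ℕ) : al (n + 1) = (catalan n : ℝ) / (2 * 4 ^ n) := by
  rw [al_eq]
  have h1 : (((n : ℝ)) + 1) * (catalan n : ℝ) = (Nat.centralBinom n : ℝ) := by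
    exact_mod_cast succ_mul_catalan_eq_centralBinom n
  rw [← h1]
  have h2 : ((n : ℝ)) + 1 ≠ 0 := by positivity
  field_simp

theorem al_diff (n : ℕ) : al (n + 1) =
    (Nat.centralBinom n : ℝ) / 4 ^ n - (Nat.centralBinom (n + 1) : ℝ) / 4 ^ (n + 1) := by
  have h1 : ((n : ℝ) + 1) * (Nat.centralBinom (n + 1) : ℝ) =
      2 * (2 * (n : ℝ) + 1) * (Nat.centralBinom n : ℝ) := by
    exact_mod_cast Nat.succ_mul_centralBinom_succ n
  have h2 : ((n : ℝ)) + 1 ≠ 0 := by positivity
  have h3 : (Nat.centralBinom (n + 1) : ℝ) =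
      2 * (2 * (n : ℝ) + 1) * (Nat.centralBinom n : ℝ) / ((n : ℝ) + 1) := by
    rw [eq_div_iff h2]; linarith
  rw [al_eq, h3, pow_succ]
  field_simp
  ring

theorem main : AlSum := by
  refine ⟨?_, ?_, ?_⟩
  · intro n
    rw [al_eq]
    have h1 : (0 : ℝ) < Nat.centralBinom n := by exact_mod_cast Nat.centralBinom_pos n
    positivity
  · intro k
    have h1 : ∑ n ∈ range k, al (n + 1) = 1 - (Nat.centralBinom k : ℝ) / 4 ^ k := by
      induction k with
      | zero => simp
      | succ k ih =>
        rw [sum_range_succ, ih, al_diff]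
        ring
    rw [h1]
    have h2 : (0 : ℝ) ≤ (Nat.centralBinom k : ℝ) / 4 ^ k := by positivity
    linarith
  · intro n
    match n with
    | 0 => simp [ac]
    | 1 =>
      rw [Finset.Nat.sum_antidiagonal_succ]
      simp [ac, al]
      norm_num
    | k + 2 =>
      rw [if_neg (by omega), if_neg (by omega), Finset.Nat.sum_antidiagonal_succ,
        Finset.Nat.sum_antidiagonal_succ']
      have e1 : ∀ p : ℕ × ℕ, ac (p.1 + 1) * ac (p.2 + 1) =
          ((catalan p.1 * catalan p.2 : ℕ) : ℝ) / (4 * 4 ^ (p.1 + p.2)) := by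
        intro p
        simp only [ac, Nat.add_eq_zero_iff, one_ne_zero, and_false, if_false]
        rw [al_cat, al_cat, pow_add]
        push_cast
        field_simp
        ring
      have e2 : ∑ p ∈ antidiagonal k, ac (p.1 + 1) * ac (p.2 + 1) = 2 * al (k + 2) := by
        have e3 : ∀ p ∈ antidiagonal k, ac (p.1 + 1) * ac (p.2 + 1) =
            ((catalan p.1 * catalan p.2 : ℕ) : ℝ) * (1 / (4 * 4 ^ k)) := by
          intro p hp
          rw [e1, mem_antidiagonal.mp hp]
          ring
        rw [sum_congr rfl e3, ← sum_mul, ← Nat.cast_sum, ← catalan_succ', al_cat (k + 1), pow_succ]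
        field_simp
      have e4 : ac 0 = 1 := by simp [ac]
      have e5 : ac (k + 2) = - al (k + 2) := by simp [ac]
      simp only [e2, e4]
      rw [show k + 1 + 1 = k + 2 from rfl, e5]
      ring

end Pool.Agent.Q208.PL.Al
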