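import Pool.Agent.Q234.PL.Stm

/-!
# Project PL, job DU: solvability with a bound
-/

set_option autoImplicit false

open scoped BigOperators Matrix
open Finset Pool.Agent.TH235.PP

namespace Pool.Agent.Q208.PL.Du

open Pool.Agent.Q234.PL

theorem self_nonneg {K : ℕ} (x : Fin K → ℝ) : 0 ≤ x ⬝ᵥ x :=
  sum_nonneg (fun i _ => mul_self_nonneg (x i))

/-- Cauchy-Schwarz for pairs -/
theorem cs {K : ℕ} (x y p r : Fin K → ℝ) :
    (x ⬝ᵥ p + y ⬝ᵥ r) ^ 2 ≤ (x ⬝ᵥ x + y ⬝ᵥ y) * (p ⬝ᵥ p + r ⬝ᵥ r) := by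
  have h := Finset.sum_mul_sq_le_sq_mul_sq (univ : Finset (Fin K ⊕ Fin K)) (Sum.elim x y)
    (Sum.elim p r)
  simp only [Fintype.sum_sum_type, Sum.elim_inl, Sum.elim_inr] at h
  simp only [dotProduct]
  simpa only [sq] using h

/-- the restriction to the first `m` coordinates -/
def cut {K : ℕ} (m : ℕ) : (Fin K → ℝ) →ₗ[ℝ] (Fin K → ℝ) where
  toFun x := fun i => if (i : ℕ) < m then x i else 0
  map_add' x y := by
    funext i
    simp only [Pi.add_apply]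
    split_ifs <;> simp
  map_smul' c x := by
    funext i
    simp only [Pi.smul_apply, smul_eq_mul, RingHom.id_apply]
    split_ifs <;> simp

theorem cut_apply {K m : ℕ} (x : Fin K → ℝ) (i : Fin K) :
    cut m x i = if (i : ℕ) < m then x i else 0 := rfl

theorem cut_supp {K m : ℕ} {x : Fin K → ℝ} (h : ∀ i : Fin K, m ≤ (i : ℕ) → x i = 0) :
    cut m x = x := by
  funext i
  rw [cut_apply]
  split_ifs with h1
  · rfl
  · exact (h i (by omega)).symm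

/-- the map `z = Rᵀ x + R y` -/
def adj {K : ℕ} (m : ℕ) (R : Matrix (Fin K) (Fin K) ℝ) :
    ((Fin K → ℝ) × (Fin K → ℝ)) →ₗ[ℝ] (Fin K → ℝ) :=
  (Matrix.mulVecLin Rᵀ) ∘ₗ (cut m) ∘ₗ LinearMap.fst ℝ _ _ +
    (Matrix.mulVecLin R) ∘ₗ (cut m) ∘ₗ LinearMap.snd ℝ _ _

theorem adj_apply {K m : ℕ} (R : Matrix (Fin K) (Fin K) ℝ) (v : (Fin K → ℝ) × (Fin K → ℝ)) :
    adj m R v = Rᵀ *ᵥ (cut m v.1) + R *ᵥ (cut m v.2) := rfl

/-- the map `Φ` -/
def Phi {K : ℕ} (m : ℕ) (R : Matrix (Fin K) (Fin K) ℝ) :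
    ((Fin K → ℝ) × (Fin K → ℝ)) →ₗ[ℝ] ((Fin K → ℝ) × (Fin K → ℝ)) :=
  LinearMap.prod
    ((cut m) ∘ₗ (Matrix.mulVecLin R) ∘ₗ adj m R + (LinearMap.id - cut m) ∘ₗ LinearMap.fst ℝ _ _)
    ((cut m) ∘ₗ (Matrix.mulVecLin Rᵀ) ∘ₗ adj m R + (LinearMap.id - cut m) ∘ₗ LinearMap.snd ℝ _ _)

theorem Phi_apply {K m : ℕ} (R : Matrix (Fin K) (Fin K) ℝ) (v : (Fin K → ℝ) × (Fin K → ℝ)) :
    Phi m R v = (cut m (R *ᵥ adj m R v) + (v.1 - cut m v.1),
      cut m (Rᵀ *ᵥ adj m R v) + (v.2 - cut m v.2)) := rfl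

theorem Phi_low {K m : ℕ} (R : Matrix (Fin K) (Fin K) ℝ) (v : (Fin K → ℝ) × (Fin K → ℝ))
    (i : Fin K) (h : (i : ℕ) < m) : (Phi m R v).1 i = (R *ᵥ adj m R v) i ∧
      (Phi m R v).2 i = (Rᵀ *ᵥ adj m R v) i := by
  rw [Phi_apply]
  simp only [Pi.add_apply, Pi.sub_apply, cut_apply, if_pos h, sub_self, add_zero, and_self]

theorem Phi_high {K m : ℕ} (R : Matrix (Fin K) (Fin K) ℝ) (v : (Fin K → ℝ) × (Fin K → ℝ))
    (i : Fin K) (h : m ≤ (i : ℕ)) : (Phi m R v).1 i = v.1 i ∧ (Phi m R v).2 i = v.2 i := by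
  have h' : ¬ (i : ℕ) < m := by omega
  rw [Phi_apply]
  simp only [Pi.add_apply, Pi.sub_apply, cut_apply, if_neg h', sub_zero, zero_add, and_self]

/-- the norm of `z` -/
theorem norm_adj {K m : ℕ} (R : Matrix (Fin K) (Fin K) ℝ) (v : (Fin K → ℝ) × (Fin K → ℝ))
    (hv : ∀ i : Fin K, m ≤ (i : ℕ) → v.1 i = 0 ∧ v.2 i = 0) :
    adj m R v ⬝ᵥ adj m R v = v.1 ⬝ᵥ (Phi m R v).1 + v.2 ⬝ᵥ (Phi m R v).2 := by
  have e1 : adj m R v = Rᵀ *ᵥ v.1 + R *ᵥ v.2 := by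
    rw [adj_apply, cut_supp (fun i hi => (hv i hi).1), cut_supp (fun i hi => (hv i hi).2)]
  have e2 : v.1 ⬝ᵥ (Phi m R v).1 = v.1 ⬝ᵥ (R *ᵥ adj m R v) := by
    simp only [dotProduct]
    apply sum_congr rfl
    intro i _
    by_cases h : (i : ℕ) < m
    · rw [(Phi_low R v i h).1]
    · rw [(hv i (by omega)).1]; ring
  have e3 : v.2 ⬝ᵥ (Phi m R v).2 = v.2 ⬝ᵥ (Rᵀ *ᵥ adj m R v) := by
    simp only [dotProduct]
    apply sum_congr rfl
    intro i _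
    by_cases h : (i : ℕ) < m
    · rw [(Phi_low R v i h).2]
    · rw [(hv i (by omega)).2]; ring
  rw [e2, e3]
  conv_lhs => rw [e1]
  rw [add_dotProduct, ← e1, Matrix.dotProduct_mulVec, Matrix.dotProduct_mulVec,
    Matrix.mulVec_transpose, Matrix.vecMul_transpose]

theorem main : Dual := by
  intro K m κ R hκ h p r hpr
  have hinj : Function.Injective (Phi m R) := by
    rw [← LinearMap.ker_eq_bot, LinearMap.ker_eq_bot']
    intro v hv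
    have hsupp : ∀ i : Fin K, m ≤ (i : ℕ) → v.1 i = 0 ∧ v.2 i = 0 := by
      intro i hi
      have h1 := Phi_high R v i hi
      rw [hv] at h1
      exact ⟨h1.1.symm, h1.2.symm⟩
    have h1 := norm_adj R v hsupp
    rw [hv] at h1
    simp only [Prod.fst_zero, Prod.snd_zero, dotProduct_zero, add_zero] at h1
    have h2 := h v.1 v.2 hsupp
    have e1 : adj m R v = Rᵀ *ᵥ v.1 + R *ᵥ v.2 := by
      rw [adj_apply, cut_supp (fun i hi => (hsupp i hi).1), cut_supp (fun i hi => (hsupp i hi).2)]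
    rw [← e1, h1, mul_zero] at h2
    have n1 : 0 ≤ v.1 ⬝ᵥ v.1 := self_nonneg _
    have n2 : 0 ≤ v.2 ⬝ᵥ v.2 := self_nonneg _
    have z1 : v.1 ⬝ᵥ v.1 = 0 := by linarith
    have z2 : v.2 ⬝ᵥ v.2 = 0 := by linarith
    exact Prod.ext (dotProduct_self_eq_zero.mp z1) (dotProduct_self_eq_zero.mp z2)
  have hsurj : Function.Surjective (Phi m R) := LinearMap.injective_iff_surjective.mp hinj
  obtain ⟨v, hv⟩ := hsurj (p, r)
  have hsupp : ∀ i : Fin K, m ≤ (i : ℕ) → v.1 i = 0 ∧ v.2 i = 0 := by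
    intro i hi
    have h1 := Phi_high R v i hi
    rw [hv] at h1
    simp only at h1
    exact ⟨h1.1.symm.trans (hpr i hi).1, h1.2.symm.trans (hpr i hi).2⟩
  refine ⟨adj m R v, ?_, ?_⟩
  · intro i hi
    have h1 := Phi_low R v i hi
    rw [hv] at h1
    exact ⟨h1.1.symm, h1.2.symm⟩
  · have h1 := norm_adj R v hsupp
    rw [hv] at h1
    simp only at h1
    have h2 := h v.1 v.2 hsupp
    have e1 : adj m R v = Rᵀ *ᵥ v.1 + R *ᵥ v.2 := by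
      rw [adj_apply, cut_supp (fun i hi => (hsupp i hi).1), cut_supp (fun i hi => (hsupp i hi).2)]
    rw [← e1] at h2
    have h3 := cs v.1 v.2 p r
    rw [← h1] at h3
    set W : ℝ := adj m R v ⬝ᵥ adj m R v with hW
    have hW0 : 0 ≤ W := self_nonneg _
    have hc0 : 0 ≤ p ⬝ᵥ p + r ⬝ᵥ r := add_nonneg (self_nonneg _) (self_nonneg _)
    have h4 : W ^ 2 ≤ κ ^ 2 * W * (p ⬝ᵥ p + r ⬝ᵥ r) :=
      h3.trans (mul_le_mul_of_nonneg_right h2 hc0)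
    rcases hW0.eq_or_lt with h5 | h5
    · rw [← h5]
      positivity
    · have h6 : W * W ≤ W * (κ ^ 2 * (p ⬝ᵥ p + r ⬝ᵥ r)) := by nlinarith
      exact le_of_mul_le_mul_left h6 h5

end Pool.Agent.Q208.PL.Du
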